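import Pool.Agent.H28.Fos2

set_option autoImplicit false

namespace Pool.Agent.Results.MP_8cd3bd_co.Ten

open Pool.Agent.H28.Fos

/-- A path, written as its nonempty sequence of distinct vertices; its order is the length. -/
def IsPath {V : Type} (G : SimpleGraph V) (p : List V) : Prop :=
  p ≠ [] ∧ p.Nodup ∧ p.IsChain G.Adj

/-- A Hamiltonian cycle, written as a cyclic sequence listing every vertex once. -/
def IsHamCycle {V : Type} (G : SimpleGraph V) (c : List V) : Prop :=
  3 ≤ c.length ∧ c.Nodup ∧ (∀ v, v ∈ c) ∧ c.IsChain G.Adj ∧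
    ∀ x ∈ c.head?, ∀ y ∈ c.getLast?, G.Adj x y

/-- The path `p` is a block of consecutive vertices of some Hamiltonian cycle. -/
def LiesOnHam {V : Type} (G : SimpleGraph V) (p : List V) : Prop :=
  ∃ c, IsHamCycle G c ∧ p <:+: c

theorem adj_symm : ∀ x y : Fin 90, adj x y = true → adj y x = true := by decide +kernel
theorem adj_irr : ∀ x : Fin 90, adj x x = false := by decide +kernel
theorem adj_shift : ∀ x y : Fin 90, adj x y = true → adj (x + 6) (y + 6) = true ∧
    adj (x + 84) (y + 84) = true := by decide +kernel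
theorem adj_oth : ∀ v u w : Fin 90, adj v u = true → adj w v = true → w ≠ u →
    w = o1 v u ∨ w = o2 v u := by
  have h : ∀ (v : Fin 90) (i j : Fin 3), nb v j ≠ nb v i →
      nb v j = o1 v (nb v i) ∨ nb v j = o2 v (nb v i) := by decide +kernel
  have e : ∀ v u : Fin 90, adj v u = true → ∃ i : Fin 3, u = nb v i := by
    intro v u hu
    simp only [adj, Bool.or_eq_true, beq_iff_eq] at hu
    rcases hu with (hu | hu) | hu
    exacts [⟨0, hu⟩, ⟨1, hu⟩, ⟨2, hu⟩]
  intro v u w hu hw hne
  obtain ⟨i, rfl⟩ := e v u hu
  obtain ⟨j, rfl⟩ := e v w (adj_symm _ _ hw)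
  exact h v i j hne
theorem adj_nb (v : Fin 90) (i : ℕ) : adj (nb v i) v = true := by
  apply adj_symm
  rcases i with _ | _ | i <;> simp [adj, nb]
theorem adj_o1 (v u : Fin 90) : adj (o1 v u) v = true := by
  unfold o1; split <;> exact adj_nb _ _

def Fo : SimpleGraph (Fin 90) where
  Adj x y := adj x y = true
  symm := ⟨fun x y h => adj_symm x y h⟩
  loopless := ⟨fun x h => by simp [adj_irr x] at h⟩

instance : DecidableRel Fo.Adj := fun x y => inferInstanceAs (Decidable (adj x y = true))

theorem grow_spec (f c : ℕ) (p : List (Fin 90)) (h : p.IsChain Fo.Adj) :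
    (grow f c p).IsChain Fo.Adj ∧ p <:+ grow f c p := by
  induction f generalizing c p with
  | zero => exact ⟨h, List.suffix_refl _⟩
  | succ f ih =>
    cases p with
    | nil => simp [grow]
    | cons v r =>
      simp only [grow, nrm_eq]
      have := ih (c / 3) (nb v (c % 3) :: v :: r) (List.IsChain.cons_cons (adj_nb _ _) h)
      exact ⟨this.1, (List.suffix_cons _ _).trans this.2⟩

theorem msk_mem (c : List (Fin 90)) (v : Fin 90) (h : (msk c).testBit v.val = true) : v ∈ c := by
  induction c with
  | nil => simp [msk] at h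
  | cons w r ih =>
    simp only [msk, Nat.testBit_or, Bool.or_eq_true, Nat.testBit_two_pow, decide_eq_true_eq] at h
    rcases h with h | h
    · rw [Fin.ext h]; exact List.mem_cons_self
    · exact List.mem_cons_of_mem _ (ih h)

theorem fin_spec (c : List (Fin 90)) (hc : c.IsChain Fo.Adj) (h : fin c = true) :
    IsHamCycle Fo c := by
  simp only [fin, Bool.and_eq_true, beq_iff_eq] at h
  obtain ⟨⟨h1, h2⟩, h3⟩ := h
  have hm : ∀ v, v ∈ c := fun v => msk_mem c v (by
    rw [h2, Nat.testBit_two_pow_sub_one]; simpa using v.isLt)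
  refine ⟨by omega, ?_, hm, hc, ?_⟩
  · have : c.toFinset = Finset.univ := by ext v; simp [hm v]
    have h4 : c.toFinset.card = c.length := by rw [this, h1]; simp
    exact Multiset.coe_nodup.1 (Multiset.toFinset_card_eq_card_iff_nodup.1 (by simpa using h4))
  · intro x hx y hy
    rw [List.headD_eq_head?_getD, List.getLastD_eq_getLast?, Option.mem_def.1 hx,
      Option.mem_def.1 hy] at h3
    exact h3

theorem ok_self (f : ℕ) (t : T) (p : List (Fin 90)) (hp : p.IsChain Fo.Adj)
    (h : ok f t p = true) : LiesOnHam Fo p := by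
  induction f generalizing t p with
  | zero =>
    cases t with
    | leaf c =>
      have := grow_spec 80 c p hp
      exact ⟨_, fin_spec _ this.1 (lf_fin c p (by simpa [ok] using h)), this.2.isInfix⟩
    | node a b => simp [ok] at h
  | succ f ih =>
    match t, p, hp, h with
    | .node a b, v :: u :: r, hp, h =>
      simp only [ok, nrm_eq, Bool.and_eq_true] at h
      obtain ⟨c, hc, hi⟩ := ih a _ (List.IsChain.cons_cons (adj_o1 v u) hp) h.1
      exact ⟨c, hc, (List.suffix_cons _ _).isInfix.trans hi⟩
    | .leaf _, _, _, h => simp [ok] at h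
    | .node _ _, [], _, h => simp [ok] at h
    | .node _ _, [_], _, h => simp [ok] at h

theorem ok_all (f : ℕ) (t : T) (p q : List (Fin 90)) (h : ok f t p = true) (hq : q.length ≤ f)
    (hc : (q ++ p).IsChain Fo.Adj) (hn : (q ++ p).Nodup) : LiesOnHam Fo (q ++ p) := by
  induction f generalizing t p q with
  | zero =>
    obtain rfl : q = [] := List.length_eq_zero_iff.1 (by omega)
    exact ok_self 0 t p hc h
  | succ f ih =>
    rcases List.eq_nil_or_concat q with rfl | ⟨q, w, rfl⟩
    · exact ok_self _ t p hc h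
    match t, p, hc, hn, h with
    | .node a b, v :: u :: r, hc, hn, h =>
      simp only [ok, nrm_eq, Bool.and_eq_true] at h
      simp only [List.concat_eq_append, List.append_assoc, List.singleton_append,
        List.length_append, List.length_singleton] at hc hn hq ⊢
      have hc2 : (w :: v :: u :: r).IsChain Fo.Adj := hc.right_of_append
      have hn2 : (w :: v :: u :: r).Nodup := hn.of_append_right
      have hwu : w ≠ u := by
        intro e; subst e; simp at hn2
      rw [List.isChain_cons_cons, List.isChain_cons_cons] at hc2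
      rcases adj_oth v u w hc2.2.1 hc2.1 hwu with e | e
      · exact ih a _ q (e ▸ h.1) (by omega) hc hn
      · exact ih b _ q (e ▸ h.2) (by omega) hc hn
    | .leaf _, _, _, _, h => simp [ok] at h
    | .node _ _, [], _, _, h => simp [ok] at h
    | .node _ _, [_], _, _, h => simp [ok] at h

theorem shift (p : List (Fin 90)) (h : LiesOnHam Fo p) : LiesOnHam Fo (p.map (· + 6)) := by
  obtain ⟨c, ⟨h1, h2, h3, h4, h5⟩, hi⟩ := h
  refine ⟨c.map (· + 6), ⟨by simpa using h1, h2.map (add_left_injective 6), fun v => ?_, ?_, ?_⟩,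
    hi.map _⟩
  · exact List.mem_map.2 ⟨v - 6, h3 _, by simp⟩
  · rw [List.isChain_map]
    exact h4.imp fun x y hxy => (adj_shift x y hxy).1
  · intro x hx y hy
    rw [List.head?_map] at hx
    rw [List.getLast?_map] at hy
    obtain ⟨x', hx', rfl⟩ := Option.mem_map.1 hx
    obtain ⟨y', hy', rfl⟩ := Option.mem_map.1 hy
    exact (adj_shift _ _ (h5 x' hx' y' hy')).1

theorem all_root (k : ℕ) : ∀ (s : Fin 90) (q : List (Fin 90)), s.val = k → q.length ≤ 9 →
    (q ++ [s]).IsChain Fo.Adj → (q ++ [s]).Nodup → LiesOnHam Fo (q ++ [s]) := by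
  induction k using Nat.strong_induction_on with
  | _ k ih =>
    intro s q hs hq hc hn
    by_cases h6 : s.val < 6
    · rcases List.eq_nil_or_concat q with rfl | ⟨q, u, rfl⟩
      · obtain ⟨t, ht⟩ := roots s 0 h6 (by omega)
        obtain ⟨c, hc, hi⟩ := ok_self 8 t _ (List.isChain_pair.2 (adj_nb s 0)) ht
        exact ⟨c, hc, (List.suffix_cons _ _).isInfix.trans hi⟩
      · simp only [List.concat_eq_append, List.append_assoc, List.singleton_append,
          List.length_append, List.length_singleton] at hc hn hq ⊢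
        have hus0 : Fo.Adj u s := List.isChain_pair.1 hc.right_of_append
        have hus : adj s u = true := adj_symm _ _ hus0
        simp only [adj, Bool.or_eq_true, beq_iff_eq] at hus
        obtain ⟨i, hi, rfl⟩ : ∃ i, i < 3 ∧ u = nb s i := by
          rcases hus with (hu | hu) | hu
          exacts [⟨0, by omega, hu⟩, ⟨1, by omega, hu⟩, ⟨2, by omega, hu⟩]
        obtain ⟨t, ht⟩ := roots s i h6 hi
        exact ok_all 8 t _ q ht (by omega) hc hn
    · have hlt : ∀ s : Fin 90, ¬ s.val < 6 → (s + 84).val < s.val := by decide +kernel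
      have hid : ∀ x : Fin 90, x + 84 + 6 = x := by decide +kernel
      have e : (q ++ [s]).map (· + 84) = q.map (· + 84) ++ [s + 84] := by simp
      have h1 := ih (s + 84).val (hs ▸ hlt s h6) (s + 84) (q.map (· + 84)) rfl (by simpa using hq)
        (by
          rw [← e, List.isChain_map]
          exact hc.imp fun x y hxy => (adj_shift x y hxy).2)
        (by rw [← e]; exact hn.map (add_left_injective 84))
      have h2 := shift _ h1
      rw [← e, List.map_map] at h2
      have : ((fun x : Fin 90 => x + 6) ∘ fun x => x + 84) = id := funext hid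
      rwa [this, List.map_id] at h2

theorem result : ∃ G : SimpleGraph (Fin 90), (∀ v, (G.neighborSet v).ncard = 3) ∧
    (∃ c, IsHamCycle G c) ∧ ∀ p, IsPath G p → p.length ≤ 10 → LiesOnHam G p := by
  have key : ∀ p, IsPath Fo p → p.length ≤ 10 → LiesOnHam Fo p := by
    rintro p ⟨h0, hn, hc⟩ hl
    rcases List.eq_nil_or_concat p with rfl | ⟨q, s, rfl⟩
    · exact absurd rfl h0
    · rw [List.concat_eq_append] at hn hc hl ⊢
      exact all_root _ s q rfl (by simp at hl; omega) hc hn
  refine ⟨Fo, fun v => ?_, ?_, key⟩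
  · have h : ∀ v : Fin 90, (Finset.univ.filter fun w => adj v w = true).card = 3 := by
      decide +kernel
    rw [← h v, ← Set.ncard_coe_finset]
    congr 1
    ext w
    simp [Fo]
  · obtain ⟨c, hc, -⟩ := key [0] ⟨by simp, by simp, by simp⟩ (by simp)
    exact ⟨c, hc⟩

end Pool.Agent.Results.MP_8cd3bd_co.Ten
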